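import Pool.Agent.PX.Stmts

/-!
Squad PX, row EUX (helper32, after helper15's row EUF): the dual derivations lower the order, the Euler
operator keeps it.
-/

set_option autoImplicit false

namespace Pool.Agent.PX.H32

open MvPolynomial Pool.Agent.PX
open Pool.Agent.RS (FF io)
open Pool.Agent.PW (dd JUN RR FG Robust VV Piv del eul Ph Zer Free)

theorem eux (fns : FnsStmt) (fnm : FnmStmt) (fnx : FnxStmt) (fnp : FnpStmt) (dlx : DlxStmt) :
    EuxStmt := by
  intro E _ _ ρ c k j s Γ y G z H hΓ hy hz hzG hH hR hρk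
  obtain ⟨m1, -, -, -, -⟩ := fnm E s Γ hΓ
  obtain ⟨-, ⟨S, hS⟩, r3, -, r5, r6⟩ := Pool.Agent.PW.aRrs E k
  set T' : Finset ℕ := nz Γ z with hT'
  have hcT' : T'.card ≤ k := by
    refine le_trans ?_ hρk
    rw [hT']
    unfold nz
    refine Finset.card_biUnion_le.trans ((Finset.sum_le_sum fun b _ => hΓ.card (z b)).trans ?_)
    rw [Finset.sum_const, Finset.card_univ, Fintype.card_fin, smul_eq_mul]
  have hbT' : ∀ b, Γ (z b) ⊆ T' := fun b =>
    Finset.subset_biUnion_of_mem (fun b => Γ (z b)) (Finset.mem_univ b)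
  obtain ⟨Δ, hΔ0, hΔ, hn⟩ := (dlx E ρ y z hz).2 T' (fun a b => (hy a (z b)).trans (hbT' b))
  set T : Finset ℕ := G ∪ T' with hT
  have hGT : G ⊆ T := Finset.subset_union_left
  have hzT : T' ⊆ T := Finset.subset_union_right
  -- the entries of the inverse matrix
  have hV : ∀ a b, FN Γ 0 T ((VV y z)⁻¹ a b) ∧ RR k ((VV y z)⁻¹ a b) := by
    intro a b
    obtain ⟨n, hn1, hn2⟩ := hn a b
    have h0 : FG 0 T' ((VV y z)⁻¹ a b) :=
      (Pool.Agent.PW.aFgz E T' _).1.2 ⟨n, Δ, hΔ0, hn1, hΔ, hn2⟩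
    have h0' : FN Γ 0 T' ((VV y z)⁻¹ a b) := h0
    refine ⟨m1 0 _ _ _ hzT h0', ?_⟩
    have hc : Δ.vars.card ≤ k := (Finset.card_le_card hΔ).trans hcT'
    rw [hn2, div_eq_mul_inv, ← hS]
    exact S.mul_mem ((hS _).2 (r5 n)) ((hS _).2 (r6 Δ hΔ0 hc))
  have hd : ∀ b, FN Γ c T (dd (z b) H) ∧ RR k (dd (z b) H) := by
    intro b
    have h1 : FN Γ c (G ∪ Γ (z b)) (dd (z b) H) := hH (z b) (hzG b)
    refine ⟨m1 c _ _ _ ?_ h1, r3 _ _ hR⟩
    exact Finset.union_subset hGT ((hbT' b).trans hzT)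
  have hdel : ∀ a, del y z a H = ∑ b, (VV y z)⁻¹ a b * dd (z b) H := by
    intro a
    unfold del
    have h := congrFun (map_sum (Derivation.coeFnAddMonoidHom (R := E) (A := FF E) (M := FF E))
      (fun b => (VV y z)⁻¹ a b • dd (z b)) Finset.univ) H
    rw [Finset.sum_apply] at h
    exact h
  have h1 : ∀ a, FN Γ c T (del y z a H) ∧ RR k (del y z a H) := by
    intro a
    rw [hdel]
    constructor
    · obtain ⟨U, hU⟩ := fns E Γ c T
      rw [← hU]
      refine U.sum_mem fun b _ => (hU _).2 ?_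
      have h2 := fnx E s Γ hΓ 0 c T _ _ (hV a b).1 (hd b).1
      rwa [Nat.zero_add] at h2
    · rw [← hS]
      exact sum_mem fun b _ => S.mul_mem ((hS _).2 (hV a b).2) ((hS _).2 (hd b).2)
  have e1 : ((j : FF E))⁻¹ * ∑ a, io E (y a) * del y z a H =
      ((j : E))⁻¹ • ∑ a, io E (y a) * del y z a H := by
    rw [Algebra.smul_def, map_inv₀, map_natCast]
  refine ⟨h1, ?_, ?_⟩
  · obtain ⟨U, hU⟩ := fns E Γ (c + 1) T
    unfold eul
    rw [← hU, e1]
    refine U.sub_mem ((hU _).2 (m1 _ _ _ _ hGT hH)) (U.smul_mem _ (U.sum_mem fun a _ =>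
      (hU _).2 ?_))
    have h2 : FN Γ 1 T (io E (y a)) := fnp E Γ (y a) T (hy a)
    have h3 := fnx E s Γ hΓ 1 c T _ _ h2 (h1 a).1
    rwa [Nat.add_comm] at h3
  · unfold eul
    rw [← hS, e1]
    exact S.sub_mem ((hS _).2 hR) (S.smul_mem (sum_mem fun a _ =>
      S.mul_mem ((hS _).2 (r5 _)) ((hS _).2 (h1 a).2)) _)

end Pool.Agent.PX.H32
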