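import Pool.Agent.PX.Stmts

/-!
# Squad PX, row REX (helper32, after helper60's row REW): rewriting of the terms with a given span
-/

set_option autoImplicit false

namespace Pool.Agent.PX.H32

open MvPolynomial Pool.Agent.PX
open Pool.Agent.RS (FF io)
open Pool.Agent.PW (dd JUN RR FG Robust VV Piv del eul Ph Zer Free)

theorem rex (wwx : WwxStmt) : RexStmt := by
  classical
  intro E _ _ ρ c0 R c y hy S hS ι _ H b hlen hb hspan hθ
  obtain ⟨SF, hSF⟩ := Pool.Agent.PW.aFgs E c ∅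
  obtain ⟨SR, hSR⟩ := (Pool.Agent.PW.aRrs E c).2.1
  let 𝒩 : Submodule E (FF E) :=
    { carrier := {w | ∃ h : Fin ρ → FF E, w = ∑ a, io E (y a) * h a ∧
        ∀ a, FG c ∅ (h a) ∧ RR c (h a)}
      add_mem' := by
        rintro v w ⟨h, hv, hh⟩ ⟨h', hw, hh'⟩
        refine ⟨fun a => h a + h' a, ?_, fun a => ⟨?_, ?_⟩⟩
        · rw [hv, hw, ← Finset.sum_add_distrib]
          exact Finset.sum_congr rfl fun a _ => (mul_add _ _ _).symm
        · exact (hSF _).1 (SF.add_mem ((hSF _).2 (hh a).1) ((hSF _).2 (hh' a).1))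
        · exact (hSR _).1 (SR.add_mem ((hSR _).2 (hh a).2) ((hSR _).2 (hh' a).2))
      zero_mem' := by
        refine ⟨fun _ => 0, ?_, fun a => ⟨(hSF _).1 SF.zero_mem, (hSR _).1 SR.zero_mem⟩⟩
        simp
      smul_mem' := by
        rintro r w ⟨h, hw, hh⟩
        refine ⟨fun a => r • h a, ?_, fun a => ⟨?_, ?_⟩⟩
        · rw [hw, Finset.smul_sum]
          exact Finset.sum_congr rfl fun a _ => (mul_smul_comm _ _ _).symm
        · exact (hSF _).1 (SF.smul_mem r ((hSF _).2 (hh a).1))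
        · exact (hSR _).1 (SR.smul_mem ((hSR _).2 (hh a).2) r) }
  obtain ⟨Ψ, n, cl, x, hΨ, hrel, hH⟩ := Pool.Agent.PW.H47.lin E (FF E) 𝒩 ι
    {θ : MvPolynomial ℕ E →ₗ[E] E // ∀ g ∈ S, θ g ≠ 0}
    (fun t θ => (((b t).map θ.1).prod)⁻¹) H (fun θ => hθ θ.1 θ.2)
  have h0 : ∀ l, ∑ t, cl l t • (io E (b t).prod)⁻¹ = 0 := fun l =>
    Pool.Agent.PW.H26.rid E ρ y hy S hS ι b (cl l) (fun t g hg => (hb t g hg).1)
      (fun θ h => hrel l ⟨θ, h⟩)
  have h1 : ∑ t, H t / io E (b t).prod = ∑ t, Ψ t / io E (b t).prod := by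
    have h2 : ∀ t, H t / io E (b t).prod = Ψ t / io E (b t).prod +
        ∑ l, x l * (cl l t • (io E (b t).prod)⁻¹) := by
      intro t
      rw [hH t, add_div, Finset.sum_div]
      congr 1
      refine Finset.sum_congr rfl fun l _ => ?_
      rw [div_eq_mul_inv, smul_mul_assoc, mul_smul_comm]
    rw [Finset.sum_congr rfl fun t _ => h2 t, Finset.sum_add_distrib, Finset.sum_comm]
    have h3 : ∑ l, ∑ t, x l * (cl l t • (io E (b t).prod)⁻¹) = 0 := by
      refine Finset.sum_eq_zero fun l _ => ?_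
      rw [← Finset.mul_sum, h0 l, mul_zero]
    rw [h3, add_zero]
  rw [h1]
  refine Submodule.sum_mem _ fun t _ => ?_
  obtain ⟨h, hh, hfr⟩ := hΨ t
  rw [hh, Finset.sum_div]
  refine Submodule.sum_mem _ fun a _ => ?_
  exact (wwx E c0).2.1 R c (b t) (y a) (h a) (hlen t) (fun g hg => (hb t g hg).2)
    (by rw [hspan t]; exact Submodule.subset_span ⟨a, rfl⟩) (hfr a).1 (hfr a).2

end Pool.Agent.PX.H32
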